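import Mathlib
import Pool.Agent.H.MP_349e68_an.B

namespace Pool.Agent.Results.MP_349e68_an.No

open Filter Topology Set Pool.Agent.H.MP_349e68_an

/-- the little Lipschitz space: the jumps along edges tend to zero -/
def L0 {T : Type} (G : SimpleGraph T) (f : T → ℂ) : Prop :=
  ∀ ε : ℝ, 0 < ε → {e : T × T | G.Adj e.1 e.2 ∧ ε ≤ ‖f e.1 - f e.2‖}.Finite

/-- the norm of `f` is at most `c` -/
def NormLe {T : Type} (G : SimpleGraph T) (o : T) (f : T → ℂ) (c : ℝ) : Prop :=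
  ‖f o‖ ≤ c ∧ ∀ v w, G.Adj v w → ‖f v - f w‖ ≤ c

theorem acyc {V : Type} (G : SimpleGraph V) (r : V → ℕ) (par : V → V)
    (h : ∀ v w, G.Adj v w → (w = par v ∧ r w < r v) ∨ (v = par w ∧ r v < r w)) : G.IsAcyclic := by
  classical
  intro v c hc
  obtain ⟨u, hu, hmax⟩ := Finset.exists_max_image c.support.toFinset r ⟨v, by simp⟩
  have hu' : u ∈ c.support := by simpa using hu
  have hc' := hc.rotate hu'
  set d := c.rotate u hu' with hd
  have hs : ∀ x ∈ d.support, r x ≤ r u := fun x hx => hmax _ (by simpa [hd] using hx)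
  have hn := hc'.not_nil
  have b1 := hs _ (d.getVert_mem_support 1)
  have b2 := hs _ (d.getVert_mem_support (d.length - 1))
  apply hc'.snd_ne_penultimate
  rcases h _ _ (d.adj_snd hn) with ⟨e1, -⟩ | ⟨-, e1⟩
  · rcases h _ _ (d.adj_penultimate hn).symm with ⟨e2, -⟩ | ⟨-, e2⟩
    · rw [e1, e2]
    · exact absurd e2 (not_lt.2 b2)
  · exact absurd e1 (not_lt.2 b1)

def tr : SimpleGraph V := SimpleGraph.fromRel fun v w => w = par v

theorem par_lt {v : V} (h : v ≠ par v) : rk v = rk (par v) + 1 :=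
  rk_par (by rintro rfl; exact h rfl)

theorem adj_par {v : V} (h : v ≠ (0, [])) : tr.Adj v (par v) :=
  ⟨fun e => by have := rk_par h; rw [← e] at this; omega, Or.inl rfl⟩

theorem adj_D (f : V → ℂ) {v w : V} (h : tr.Adj v w) :
    (w = par v ∧ ‖f v - f w‖ = ‖D f v‖) ∨ (v = par w ∧ ‖f v - f w‖ = ‖D f w‖) := by
  obtain ⟨h1, rfl | rfl⟩ := h
  · exact Or.inl ⟨rfl, by rw [D, if_neg (by rintro rfl; exact h1 rfl)]⟩
  · exact Or.inr ⟨rfl, by rw [D, if_neg (by rintro rfl; exact h1 rfl), norm_sub_rev]⟩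

theorem normLe_iff (f : V → ℂ) (c : ℝ) : NormLe tr (0, []) f c ↔ N f c := by
  constructor
  · rintro ⟨h1, h2⟩ v
    unfold D
    split_ifs with h
    · rwa [h]
    · exact h2 _ _ (adj_par h)
  · intro h
    refine ⟨by simpa [D0] using h (0, []), fun v w hvw => ?_⟩
    rcases adj_D f hvw with ⟨-, e⟩ | ⟨-, e⟩ <;> rw [e] <;> exact h _

theorem L0_iff (f : V → ℂ) : L0 tr f ↔ Tendsto (D f) cofinite (𝓝 0) := by
  rw [NormedAddGroup.tendsto_nhds_zero]
  refine forall_congr' fun ε => forall_congr' fun hε => ?_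
  rw [eventually_cofinite]
  constructor
  · intro h
    refine ((h.image Prod.fst).insert (0, [])).subset fun v hv => ?_
    by_cases h0 : v = (0, [])
    · exact Or.inl h0
    · refine Or.inr ⟨(v, par v), ⟨adj_par h0, ?_⟩, rfl⟩
      simpa [D, h0] using hv
  · intro h
    refine ((h.image fun v => (v, par v)).union (h.image fun v => (par v, v))).subset ?_
    rintro ⟨v, w⟩ ⟨h1, h2⟩
    rcases adj_D f h1 with ⟨e', e⟩ | ⟨e', e⟩
    · exact Or.inl ⟨v, not_lt.2 (e ▸ h2), Prod.ext rfl e'.symm⟩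
    · exact Or.inr ⟨w, not_lt.2 (e ▸ h2), Prod.ext e'.symm rfl⟩

theorem result : ∃ (T : Type) (G : SimpleGraph T) (o : T) (φ : T → T) (lam : ℂ),
    G.IsTree ∧ Infinite T ∧ (∀ v, (G.neighborSet v).Finite) ∧
    (∀ v, 2 ≤ (G.neighborSet v).ncard) ∧
    (∃ C : ℝ, ∀ f, L0 G f → L0 G (f ∘ φ) ∧ ∀ c, NormLe G o f c → NormLe G o (f ∘ φ) (C * c)) ∧
    1 ≤ ‖lam‖ ∧
    (∃ f, L0 G f ∧ ∀ g, L0 G g → ∀ ε : ℝ, 0 < ε →
      ∃ n : ℕ, NormLe G o (lam ^ n • f ∘ φ^[n] - g) ε) ∧
    ∃ v, {n : ℕ | 1 ≤ n ∧ (φ^[n] ⁻¹' {v}).Nonempty}.Infinite := by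
  have hfin : ∀ v, (tr.neighborSet v).Finite := by
    intro v
    refine (fin_le (rk v + 1)).subset ?_
    rintro w ⟨h1, rfl | rfl⟩
    · have := par_lt h1
      simp only [mem_setOf_eq]
      omega
    · exact (par_lt h1.symm).le
  refine ⟨V, tr, (0, []), phi, 1, ⟨?_, ?_⟩, inferInstance, hfin, fun v => ?_, ⟨5, fun f hf => ?_⟩,
    by simp, ?_, (2 ^ 0, []), (Ici_infinite 1).mono fun n hn => ⟨hn, _, it_W n 0⟩⟩
  · have key : ∀ (k : ℕ) (v : V), rk v = k → tr.Reachable v (0, []) := by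
      intro k
      induction k with
      | zero =>
        rintro ⟨m, h⟩ e
        obtain ⟨rfl, rfl⟩ : m = 0 ∧ h = [] := by simpa [rk] using e
        rfl
      | succ k ih =>
        intro v e
        have h0 : v ≠ (0, []) := by rintro rfl; simp [rk] at e
        have := rk_par h0
        exact (adj_par h0).reachable.trans (ih _ (by omega))
    exact ⟨fun v w => (key _ v rfl).trans (key _ w rfl).symm⟩
  · refine acyc tr rk par ?_
    rintro v w ⟨h1, rfl | rfl⟩
    · have := par_lt h1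
      exact Or.inl ⟨rfl, by omega⟩
    · have := par_lt h1.symm
      exact Or.inr ⟨rfl, by omega⟩
  · have a : ∀ b, tr.Adj v (v.1, v.2 ++ [b]) := fun b => by
      simpa [par_t] using (adj_par (v := (v.1, v.2 ++ [b])) (by simp)).symm
    exact (Set.one_lt_ncard (hfin _)).2 ⟨_, a true, _, a false, by simp⟩
  · rw [L0_iff] at hf ⊢
    refine ⟨Z_phi hf, fun c hc => ?_⟩
    rw [normLe_iff] at hc ⊢
    exact hc.comp
  · simpa only [L0_iff, normLe_iff, one_pow, one_smul] using hyper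

end Pool.Agent.Results.MP_349e68_an.No
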